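import Pool.Agent.helper41.Sun.Final

/-!
# MP_1f7865_nt: the pair (5, 7)

Every integer `n ≥ 0` is the sum of a pentagonal number, a second pentagonal number and a
generalized heptagonal number.
-/

namespace Pool.Agent.Results.MP_1f7865_nt.PairFiveSeven

open Pool.Agent.helper41.Sun

/-- The value `p_k(z) = ((k - 2) z^2 - (k - 4) z) / 2` of the problem, as a rational number. -/
def polyNum (k z : ℤ) : ℚ := ((k - 2) * z ^ 2 - (k - 4) * z) / 2

theorem odd_sq_rep {u : ℤ} (hu : u % 2 = 1) (h3 : u % 3 = 2) :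
    (0 ≤ u → ∃ x : ℕ, u = 6 * x - 1) ∧ (u < 0 → ∃ y : ℕ, u = -(6 * y + 1)) := by
  constructor
  · intro h0
    exact ⟨((u + 1) / 6).toNat, by omega⟩
  · intro h0
    exact ⟨((-u - 1) / 6).toNat, by omega⟩

theorem odd_sq_rep' {u : ℤ} (hu : u % 2 = 1) (h3 : u % 3 = 1) :
    (0 ≤ u → ∃ y : ℕ, u = 6 * y + 1) ∧ (u < 0 → ∃ x : ℕ, u = -(6 * x - 1)) := by
  constructor
  · intro h0
    exact ⟨((u - 1) / 6).toNat, by omega⟩
  · intro h0
    exact ⟨((-u + 1) / 6).toNat, by omega⟩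

theorem w_rep {w u t N : ℤ} (hw : w % 2 = 1) (h : 3 * w ^ 2 + 5 * u ^ 2 + 5 * t ^ 2 = N)
    (hN : N % 120 = 37) : ∃ z : ℤ, w ^ 2 = (10 * z - 3) ^ 2 := by
  have h1 : w * w % 5 = (w % 5) * (w % 5) % 5 := Int.mul_emod _ _ _
  have h2 : 3 * (w * w) + 5 * (u ^ 2 + t ^ 2) = N := by rw [← h]; ring
  have h3 : w % 5 = 2 ∨ w % 5 = 3 := by
    rcases (show w % 5 = 0 ∨ w % 5 = 1 ∨ w % 5 = 2 ∨ w % 5 = 3 ∨ w % 5 = 4 by omega) with
      a | a | a | a | a <;> rw [a] at h1 <;> omega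
  rcases h3 with h3 | h3
  · refine ⟨(w + 3) / 10, ?_⟩
    have : w = 10 * ((w + 3) / 10) - 3 := by omega
    rw [← this]
  · refine ⟨(3 - w) / 10, ?_⟩
    have : -w = 10 * ((3 - w) / 10) - 3 := by omega
    rw [← this]; ring

theorem core (n : ℕ) : ∃ x y : ℕ, ∃ z : ℤ,
    (120 * n + 37 : ℤ) = 3 * (10 * z - 3) ^ 2 + 5 * (6 * x - 1) ^ 2 + 5 * (6 * y + 1) ^ 2 := by
  by_cases hB : BadS ((120 * n + 37 : ℕ) : ℤ)
  · have h := norm_37 (N := 120 * n + 37) (by omega) hB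
    have hn : n = 0 := by omega
    exact ⟨0, 0, 0, by rw [hn]; norm_num⟩
  · unfold BadS at hB
    push Not at hB
    obtain ⟨w, u, t, hs, hw, hu, ht, hut, hneg⟩ := hB
    push_cast at hs
    obtain ⟨z, hz⟩ := w_rep hw hs (by omega)
    have hu3 : u % 3 ≠ 0 := by
      intro h0
      have h1 : t % 3 = 0 := by omega
      obtain ⟨a, ha⟩ := Int.dvd_of_emod_eq_zero h0
      obtain ⟨b, hb⟩ := Int.dvd_of_emod_eq_zero h1
      have : (120 * n + 37 : ℤ) = 3 * (w ^ 2 + 15 * a ^ 2 + 15 * b ^ 2) := by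
        rw [← hs, ha, hb]; ring
      omega
    have hu0 : u ≠ 0 := by rintro rfl; omega
    have ht0 : t ≠ 0 := by rintro rfl; omega
    -- `u` and `t` have opposite signs
    have key : ∀ u t : ℤ, u % 2 = 1 → t % 2 = 1 → (u - t) % 3 = 0 → u % 3 ≠ 0 → 0 < u → t < 0 →
        ∃ x y : ℕ, u ^ 2 + t ^ 2 = (6 * x - 1) ^ 2 + (6 * y + 1) ^ 2 := by
      intro u t hu ht hut hu3 h1 h2
      rcases (show u % 3 = 1 ∨ u % 3 = 2 by omega) with h3 | h3
      · obtain ⟨y, hy⟩ := (odd_sq_rep' hu h3).1 h1.le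
        obtain ⟨x, hx⟩ := (odd_sq_rep' ht (by omega)).2 h2
        exact ⟨x, y, by rw [hy, hx]; ring⟩
      · obtain ⟨x, hx⟩ := (odd_sq_rep hu h3).1 h1.le
        obtain ⟨y, hy⟩ := (odd_sq_rep ht (by omega)).2 h2
        exact ⟨x, y, by rw [hy, hx]; ring⟩
    have hfin : ∃ x y : ℕ, u ^ 2 + t ^ 2 = (6 * x - 1) ^ 2 + (6 * y + 1) ^ 2 := by
      rcases lt_or_gt_of_ne hu0 with h1 | h1
      · have h2 : 0 < t := by
          rcases lt_or_gt_of_ne ht0 with h2 | h2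
          · exfalso
            have := mul_pos_of_neg_of_neg h1 h2
            linarith
          · exact h2
        obtain ⟨x, y, hxy⟩ := key t u ht hu (by omega) (by omega) h2 h1
        exact ⟨x, y, by linarith⟩
      · have h2 : t < 0 := by
          rcases lt_or_gt_of_ne ht0 with h2 | h2
          · exact h2
          · exfalso
            have := mul_pos h1 h2
            linarith
        exact key u t hu ht hut hu3 h1 h2
    obtain ⟨x, y, hxy⟩ := hfin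
    exact ⟨x, y, z, by rw [← hz]; linarith⟩

/-- Sun's question for `(k, m) = (5, 7)`: every `n ≥ 0` is `p_5(x) + p_5(-y) + p_7(z)` with
`x, y ≥ 0` and `z` an integer. -/
theorem result : ∀ n : ℕ, ∃ x y : ℕ, ∃ z : ℤ,
    (n : ℚ) = polyNum 5 x + polyNum 5 (-y) + polyNum 7 z := by
  intro n
  obtain ⟨x, y, z, h⟩ := core n
  refine ⟨x, y, z, ?_⟩
  have h2 : ((120 * n + 37 : ℤ) : ℚ) =
      ((3 * (10 * z - 3) ^ 2 + 5 * (6 * x - 1) ^ 2 + 5 * (6 * y + 1) ^ 2 : ℤ) : ℚ) := by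
    exact_mod_cast h
  push_cast at h2
  simp only [polyNum]
  push_cast
  linarith

end Pool.Agent.Results.MP_1f7865_nt.PairFiveSeven
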